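import Pool.Agent.Helper1_PRS.Stmts

/-!
# Module CLO of squad PRS: closure of the admissible polynomials under the vector fields
-/

set_option autoImplicit false

namespace Pool.Agent.PRS.H26

open MvPolynomial

section deg

variable {V : Type*} {R : Type*} [CommRing R] (w : V → ℕ)

theorem deg_mono {n m : ℕ} {P : MvPolynomial V R} (h : Deg w n P) (hnm : n ≤ m) : Deg w m P :=
  fun s hs => (h s hs).trans hnm

theorem deg_zero (n : ℕ) : Deg w n (0 : MvPolynomial V R) := by
  intro s hs
  simp at hs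

theorem deg_C (n : ℕ) (c : R) : Deg w n (C c : MvPolynomial V R) := by
  classical
  intro s hs
  have h : s = 0 := by
    by_contra hne
    rw [mem_support_iff, coeff_C, if_neg (Ne.symm hne)] at hs
    exact hs rfl
  rw [h]
  simp

theorem deg_one (n : ℕ) : Deg w n (1 : MvPolynomial V R) := by
  rw [← C_1]
  exact deg_C w n 1

theorem deg_X (v : V) (n : ℕ) (h : w v ≤ n) : Deg w n (X v : MvPolynomial V R) := by
  classical
  intro s hs
  have h2 : s = Finsupp.single v 1 := by
    by_contra hne
    rw [mem_support_iff, coeff_X, if_neg (Ne.symm hne)] at hs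
    exact hs rfl
  rw [h2, Finsupp.sum_single_index (by simp)]
  simpa using h

theorem deg_add {n : ℕ} {P Q : MvPolynomial V R} (hP : Deg w n P) (hQ : Deg w n Q) :
    Deg w n (P + Q) := by
  classical
  intro s hs
  rcases Finset.mem_union.1 (support_add hs) with h | h
  · exact hP s h
  · exact hQ s h

theorem deg_neg {n : ℕ} {P : MvPolynomial V R} (hP : Deg w n P) : Deg w n (-P) := by
  intro s hs
  refine hP s ?_
  rw [mem_support_iff] at hs ⊢
  rw [coeff_neg] at hs
  exact fun h => hs (by rw [h, neg_zero])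

theorem deg_sub {n : ℕ} {P Q : MvPolynomial V R} (hP : Deg w n P) (hQ : Deg w n Q) :
    Deg w n (P - Q) := by
  rw [sub_eq_add_neg]
  exact deg_add w hP (deg_neg w hQ)

theorem deg_mul {n m : ℕ} {P Q : MvPolynomial V R} (hP : Deg w n P) (hQ : Deg w m Q) :
    Deg w (n + m) (P * Q) := by
  classical
  intro s hs
  obtain ⟨a, ha, b, hb, rfl⟩ := Finset.mem_add.1 (support_mul P Q hs)
  rw [Finsupp.sum_add_index' (by simp) (by intro v e f; ring)]
  exact add_le_add (hP a ha) (hQ b hb)

theorem deg_mul' {n m k : ℕ} {P Q : MvPolynomial V R} (hP : Deg w n P) (hQ : Deg w m Q)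
    (h : n + m ≤ k) : Deg w k (P * Q) := deg_mono w (deg_mul w hP hQ) h

theorem deg_pow {n : ℕ} {P : MvPolynomial V R} (hP : Deg w n P) (k : ℕ) :
    Deg w (k * n) (P ^ k) := by
  induction k with
  | zero =>
    rw [pow_zero]
    exact deg_one w _
  | succ k ih =>
    rw [pow_succ]
    exact deg_mul' w ih hP (by ring_nf; exact le_rfl)

theorem deg_two (n : ℕ) : Deg w n (2 : MvPolynomial V R) := by
  have : (2 : MvPolynomial V R) = C 2 := by
    rw [show (2 : R) = ((2 : ℕ) : R) by norm_num, C_eq_coe_nat]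
    norm_num
  rw [this]
  exact deg_C w n 2

end deg



/-- The vector fields raise a weight by at most `e`. -/
theorem clo (hX : ClxStmt) (hY : ClyStmt) (hD : DgrStmt) : CloStmt := by
  classical
  intro N m d P hP
  -- the degrees
  have key : ∀ δ : Derivation ℚ (S N) (S N),
      (∀ c v, Deg (dw N c) (dw N c v + 3) (δ (X v))) → (∀ v, Deg (ww N) (ww N v + 0) (δ (X v))) →
      (∀ i j, jv N 0 0 ^ (2 * m) ∣ node i j (δ P)) → Adm m (d + 3) (δ P) := by
    intro δ h1 h2 h3
    refine ⟨h3, fun c => ?_, ?_⟩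
    · exact hD (dw N c) δ 3 (h1 c) d P (hP.deg c)
    · exact hD (ww N) δ 0 h2 m P hP.wt
  have hjv : ∀ (c c' : Fin 2) (l : Fin 3), Deg (dw N c) 1 (jv N c' l) := by
    intro c c' l
    refine deg_X _ _ _ ?_
    show (if c' = c then 1 else 0) ≤ 1
    split_ifs <;> omega
  have hjw : ∀ (c' : Fin 2) (l : Fin 3), Deg (ww N) (l : ℕ) (jv N c' l) := by
    intro c' l
    refine deg_X _ _ _ ?_
    exact le_rfl
  have hpd : ∀ (c c' : Fin 2) (i : Fin N) (n : ℕ), Deg (dw N c) n (pa c' i) := by
    intro c c' i n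
    refine deg_X _ _ _ ?_
    exact Nat.zero_le _
  have hpw : ∀ (c' : Fin 2) (i : Fin N) (n : ℕ), Deg (ww N) n (pa c' i) := by
    intro c' i n
    refine deg_X _ _ _ ?_
    exact Nat.zero_le _
  have hA : ∀ c i, (∀ c' v, Deg (dw N c') (dw N c' v + 3) (A c i (X v))) ∧
      (∀ v, Deg (ww N) (ww N v + 0) (A c i (X v))) := by
    intro c i
    constructor
    · intro c' v
      unfold A
      rw [mkDerivation_X]
      split_ifs with h
      · refine deg_mono _ (deg_pow _ (deg_sub _ (hjv c' c 0) (hpd c' c i 1)) 3) ?_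
        omega
      · exact deg_zero _ _
    · intro v
      unfold A
      rw [mkDerivation_X]
      split_ifs with h
      · refine deg_mono _ (deg_pow _ (deg_sub _ (hjw c 0) (hpw c i _)) 3) ?_
        show 3 * 0 ≤ _
        omega
      · exact deg_zero _ _
  have hT0 : ∀ c, (∀ c' v, Deg (dw N c') (dw N c' v + 3) (T0 N c (X v))) ∧
      (∀ v, Deg (ww N) (ww N v + 0) (T0 N c (X v))) := by
    intro c
    constructor
    · intro c' v
      unfold T0
      rw [mkDerivation_X]
      rcases v with q | q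
      · show Deg _ _ (if q = (c, 0) then 1 else 0)
        split_ifs
        · exact deg_one _ _
        · exact deg_zero _ _
      · show Deg _ _ (if q.1 = c then 1 else 0)
        split_ifs
        · exact deg_one _ _
        · exact deg_zero _ _
    · intro v
      unfold T0
      rw [mkDerivation_X]
      rcases v with q | q
      · show Deg _ _ (if q = (c, 0) then 1 else 0)
        split_ifs
        · exact deg_one _ _
        · exact deg_zero _ _
      · show Deg _ _ (if q.1 = c then 1 else 0)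
        split_ifs
        · exact deg_one _ _
        · exact deg_zero _ _
  have hT1 : ∀ c, (∀ c' v, Deg (dw N c') (dw N c' v + 3) (T1 N c (X v))) ∧
      (∀ v, Deg (ww N) (ww N v + 0) (T1 N c (X v))) := by
    intro c
    constructor
    · intro c' v
      unfold T1
      rw [mkDerivation_X]
      rcases v with q | q
      · show Deg _ _ (if q.1 = c then jv N q.1 q.2 else 0)
        split_ifs
        · exact deg_mono _ (hjv c' q.1 q.2) (by omega)
        · exact deg_zero _ _
      · show Deg _ _ (if q.1 = c then pa q.1 q.2 else 0)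
        split_ifs
        · exact hpd _ _ _ _
        · exact deg_zero _ _
    · intro v
      unfold T1
      rw [mkDerivation_X]
      rcases v with q | q
      · show Deg _ _ (if q.1 = c then jv N q.1 q.2 else 0)
        split_ifs
        · exact hjw q.1 q.2
        · exact deg_zero _ _
      · show Deg _ _ (if q.1 = c then pa q.1 q.2 else 0)
        split_ifs
        · exact hpw _ _ _
        · exact deg_zero _ _
  have hT2 : ∀ c, (∀ c' v, Deg (dw N c') (dw N c' v + 3) (T2 N c (X v))) ∧
      (∀ v, Deg (ww N) (ww N v + 0) (T2 N c (X v))) := by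
    intro c
    constructor
    · intro c' v
      unfold T2
      rw [mkDerivation_X]
      rcases v with ⟨q1, q2⟩ | ⟨q1, q2⟩
      · show Deg _ _ (if q1 = c then ![jv N c 0 ^ 2, 2 * (jv N c 0 * jv N c 1),
          2 * jv N c 1 ^ 2 + 2 * (jv N c 0 * jv N c 2)] q2 else 0)
        split_ifs
        · fin_cases q2
          · show Deg _ _ (jv N c 0 ^ 2)
            exact deg_mono _ (deg_pow _ (hjv c' c 0) 2) (by omega)
          · show Deg _ _ (2 * (jv N c 0 * jv N c 1))
            exact deg_mul' _ (deg_two _ 0) (deg_mul _ (hjv c' c 0) (hjv c' c 1)) (by omega)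
          · show Deg _ _ (2 * jv N c 1 ^ 2 + 2 * (jv N c 0 * jv N c 2))
            exact deg_add _
              (deg_mul' _ (deg_two _ 0) (deg_pow _ (hjv c' c 1) 2) (by omega))
              (deg_mul' _ (deg_two _ 0) (deg_mul _ (hjv c' c 0) (hjv c' c 2)) (by omega))
        · exact deg_zero _ _
      · show Deg _ _ (if q1 = c then pa q1 q2 ^ 2 else 0)
        split_ifs
        · exact deg_mono _ (deg_pow _ (hpd c' q1 q2 0) 2) (by omega)
        · exact deg_zero _ _
    · intro v
      unfold T2
      rw [mkDerivation_X]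
      rcases v with ⟨q1, q2⟩ | ⟨q1, q2⟩
      · show Deg _ ((q2 : ℕ) + 0) (if q1 = c then ![jv N c 0 ^ 2, 2 * (jv N c 0 * jv N c 1),
          2 * jv N c 1 ^ 2 + 2 * (jv N c 0 * jv N c 2)] q2 else 0)
        split_ifs
        · fin_cases q2
          · show Deg _ (0 + 0) (jv N c 0 ^ 2)
            exact deg_mono _ (deg_pow _ (hjw c 0) 2) (by show 2 * 0 ≤ 0; omega)
          · show Deg _ (1 + 0) (2 * (jv N c 0 * jv N c 1))
            exact deg_mul' _ (deg_two _ 0) (deg_mul _ (hjw c 0) (hjw c 1)) (by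
              show 0 + (0 + 1) ≤ 1 + 0
              omega)
          · show Deg _ (2 + 0) (2 * jv N c 1 ^ 2 + 2 * (jv N c 0 * jv N c 2))
            exact deg_add _
              (deg_mul' _ (deg_two _ 0) (deg_pow _ (hjw c 1) 2) (by
                show 0 + 2 * 1 ≤ 2 + 0
                omega))
              (deg_mul' _ (deg_two _ 0) (deg_mul _ (hjw c 0) (hjw c 2)) (by
                show 0 + (0 + 2) ≤ 2 + 0
                omega))
        · exact deg_zero _ _
      · show Deg _ _ (if q1 = c then pa q1 q2 ^ 2 else 0)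
        split_ifs
        · exact deg_mono _ (deg_pow _ (hpw q1 q2 0) 2) (by omega)
        · exact deg_zero _ _
  -- the nodes
  have hn0 : ∀ i j, (∀ i', jv N 0 0 ^ (2 * m) ∣ node i j (A 0 i' P)) ∧
      jv N 0 0 ^ (2 * m) ∣ node i j (T0 N 0 P) ∧ jv N 0 0 ^ (2 * m) ∣ node i j (T1 N 0 P) ∧
      jv N 0 0 ^ (2 * m) ∣ node i j (T2 N 0 P) := fun i j => hX N (2 * m) i j P (hP.node i j)
  have hn1 : ∀ i j, (∀ i', jv N 0 0 ^ (2 * m) ∣ node i j (A 1 i' P)) ∧
      jv N 0 0 ^ (2 * m) ∣ node i j (T0 N 1 P) ∧ jv N 0 0 ^ (2 * m) ∣ node i j (T1 N 1 P) ∧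
      jv N 0 0 ^ (2 * m) ∣ node i j (T2 N 1 P) := fun i j => hY N (2 * m) i j P (hP.node i j)
  have hc : ∀ c : Fin 2, ∀ i j, (∀ i', jv N 0 0 ^ (2 * m) ∣ node i j (A c i' P)) ∧
      jv N 0 0 ^ (2 * m) ∣ node i j (T0 N c P) ∧ jv N 0 0 ^ (2 * m) ∣ node i j (T1 N c P) ∧
      jv N 0 0 ^ (2 * m) ∣ node i j (T2 N c P) := by
    intro c
    fin_cases c
    · exact hn0
    · exact hn1
  refine ⟨fun c i => key _ (hA c i).1 (hA c i).2 fun i' j' => (hc c i' j').1 i, fun c => ⟨?_, ?_, ?_⟩⟩
  · exact key _ (hT0 c).1 (hT0 c).2 fun i' j' => (hc c i' j').2.1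
  · exact key _ (hT1 c).1 (hT1 c).2 fun i' j' => (hc c i' j').2.2.1
  · exact key _ (hT2 c).1 (hT2 c).2 fun i' j' => (hc c i' j').2.2.2

end Pool.Agent.PRS.H26
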