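import Pool.Agent.Helper1_PRS.Stmts

/-!
# Module NUM of squad PRS: a numerical inequality
-/

set_option autoImplicit false

namespace Pool.Agent.PRS.H26

open Finset

theorem sum_mons (f : ℕ × ℕ × ℕ × ℕ → ℕ) : ∑ q ∈ mons 21, f q =
    ∑ a ∈ range 22, ∑ b ∈ range 22, ∑ d ∈ range 22,
      if a + 2 * b + 2 * d ≤ 21 then f (a, b, 21 - (a + 2 * b + 2 * d), d) else 0 := by
  unfold mons
  rw [Finset.sum_filter, Finset.sum_product]
  refine Finset.sum_congr rfl fun a _ => ?_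
  rw [Finset.sum_product]
  refine Finset.sum_congr rfl fun b _ => ?_
  rw [Finset.sum_product_right]
  refine Finset.sum_congr rfl fun d _ => ?_
  by_cases h : a + 2 * b + 2 * d ≤ 21
  · rw [if_pos h, Finset.sum_eq_single (21 - (a + 2 * b + 2 * d))]
    · rw [if_pos]
      show a + 2 * b + (21 - (a + 2 * b + 2 * d)) + 2 * d = 21
      omega
    · intro c _ hc
      rw [if_neg]
      intro h2
      apply hc
      have h3 : a + 2 * b + c + 2 * d = 21 := h2
      omega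
    · intro h2
      exfalso
      apply h2
      rw [Finset.mem_range]
      omega
  · rw [if_neg h]
    refine Finset.sum_eq_zero fun c _ => ?_
    rw [if_neg]
    intro h2
    have h3 : a + 2 * b + c + 2 * d = 21 := h2
    omega

theorem arith (x y : ℕ) (hx : 273 ≤ x) (hy : 273 ≤ y) :
    (x - 13 * 21 + 1) * (y - 13 * 21 + 1) + (272 * x + 272 * y) = x * y + 272 ^ 2 * 1 := by
  have e : 13 * 21 = 273 := by norm_num
  rw [e]
  zify [hx, hy]
  ring

theorem num : NumStmt := by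
  refine ⟨1900, by norm_num, fun N hN => ?_⟩
  have h1 : ∑ r ∈ mons 21, ∑ L ∈ Finset.range (r.1 + r.2.1), (L + 1) = 26169 := by
    rw [sum_mons]
    decide +kernel
  have h2 : ∑ q ∈ mons 21, (if 0 < q.1 + q.2.1 ∧ 0 < q.2.2.1 + q.2.2.2 then
      (q.1 + q.2.1) * (q.2.2.1 + q.2.2.2) else 0) = 27456 := by
    rw [sum_mons]
    decide +kernel
  have h3 : ∑ q ∈ mons 21, (if 0 < q.1 + q.2.1 ∧ 0 < q.2.2.1 + q.2.2.2 then
      (q.1 + q.2.1) + (q.2.2.1 + q.2.2.2) else 0) = 8800 := by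
    rw [sum_mons]
    decide +kernel
  have h4 : ∑ q ∈ mons 21, (if 0 < q.1 + q.2.1 ∧ 0 < q.2.2.1 + q.2.2.2 then
      1 else 0) = 550 := by
    rw [sum_mons]
    decide +kernel
  rw [← Finset.sum_filter] at h2 h3 h4
  have h5 : ∑ q ∈ (mons 21).filter (fun q => 0 < q.1 + q.2.1 ∧ 0 < q.2.2.1 + q.2.2.2),
        (N * (q.1 + q.2.1) - 13 * 21 + 1) * (N * (q.2.2.1 + q.2.2.2) - 13 * 21 + 1)
      + 272 * N * 8800 = N ^ 2 * 27456 + 272 ^ 2 * 550 := by
    rw [← h2, ← h3, ← h4, Finset.mul_sum, Finset.mul_sum, Finset.mul_sum,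
      ← Finset.sum_add_distrib, ← Finset.sum_add_distrib]
    refine Finset.sum_congr rfl fun q hq => ?_
    obtain ⟨-, hq1, hq2⟩ := Finset.mem_filter.1 hq
    generalize q.1 + q.2.1 = k at hq1 ⊢
    generalize q.2.2.1 + q.2.2.2 = l at hq2 ⊢
    have h0 : 273 ≤ N := le_trans (by norm_num) hN
    have h6 : 273 ≤ N * k := le_trans h0 (Nat.le_mul_of_pos_right N hq1)
    have h7 : 273 ≤ N * l := le_trans h0 (Nat.le_mul_of_pos_right N hq2)
    have h8 : N ^ 2 * (k * l) = (N * k) * (N * l) := by ring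
    have h9 : 272 * N * (k + l) = 272 * (N * k) + 272 * (N * l) := by ring
    rw [h8, h9]
    exact arith _ _ h6 h7
  rw [h1]
  have h6 : 1900 * N ≤ N ^ 2 := by nlinarith
  omega

end Pool.Agent.PRS.H26
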